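import Pool.Agent.Helper58.DG.Goals

/-! C_TRF: the Jacobian determinant in a chart. -/

set_option autoImplicit false

namespace Pool.Agent.Helper8.DG

open Pool.Agent.Helper58.DG

/-- derivative of a matrix times a vector field at a zero of the field -/
theorem mulVec_fderiv {m : ℕ} (A : (Fin m → ℝ) → Matrix (Fin m) (Fin m) ℝ)
    (g : (Fin m → ℝ) → Fin m → ℝ) (u : Fin m → ℝ)
    (hA : ∀ i j, DifferentiableAt ℝ (fun y ↦ A y i j) u) (hg : DifferentiableAt ℝ g u)
    (h0 : g u = 0) :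
    HasFDerivAt (fun y ↦ (A y).mulVec (g y))
      ((LinearMap.toContinuousLinearMap (Matrix.toLin' (A u))).comp (fderiv ℝ g u)) u := by
  rw [hasFDerivAt_pi']
  intro i
  have hgj : ∀ j, HasFDerivAt (fun y ↦ g y j)
      ((ContinuousLinearMap.proj j).comp (fderiv ℝ g u)) u := fun j ↦
    (hasFDerivAt_pi'.1 hg.hasFDerivAt) j
  have h1 : ∀ j, HasFDerivAt (fun y ↦ A y i j * g y j)
      (A u i j • ((ContinuousLinearMap.proj j).comp (fderiv ℝ g u)) +
        g u j • fderiv ℝ (fun y ↦ A y i j) u) u := fun j ↦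
    (hA i j).hasFDerivAt.mul (hgj j)
  have h2 := HasFDerivAt.fun_sum (u := Finset.univ) (fun j _ ↦ h1 j)
  have h3 : (fun y ↦ (A y).mulVec (g y) i) = fun y ↦ ∑ j, A y i j * g y j := by
    funext y
    rfl
  rw [h3]
  refine h2.congr_fderiv ?_
  ext v
  simp [h0, Matrix.mulVec, dotProduct]

theorem c_trf : Pool.Agent.Helper58.DG.C_TRF := by
  intro m P ψ f Q M u hP hψ hf hQ hM hE hfu hPu
  have hPd : Differentiable ℝ P := hP.differentiable one_ne_zero
  have hψd : Differentiable ℝ ψ := hψ.differentiable one_ne_zero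
  have hfd : Differentiable ℝ f := hf.differentiable one_ne_zero
  have hL := mulVec_fderiv Q (fun y ↦ P (ψ y)) u
    (fun i j ↦ ((hQ i j).differentiable one_ne_zero) u) ((hPd (ψ u)).comp u (hψd u)) hPu
  have hR := mulVec_fderiv M f u
    (fun i j ↦ ((hM i j).differentiable one_ne_zero) u) (hfd u) hfu
  have hEq : (fun y ↦ (Q y).mulVec (P (ψ y))) = fun y ↦ (M y).mulVec (f y) := funext hE
  rw [hEq] at hL
  have huniq := hL.unique hR
  have hcomp : fderiv ℝ (fun y ↦ P (ψ y)) u = (fderiv ℝ P (ψ u)).comp (fderiv ℝ ψ u) :=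
    fderiv_comp u (hPd (ψ u)) (hψd u)
  rw [hcomp] at huniq
  have hdet := congrArg ContinuousLinearMap.det huniq
  unfold jac
  have e1 : ∀ (X : Matrix (Fin m) (Fin m) ℝ) (B : (Fin m → ℝ) →L[ℝ] (Fin m → ℝ)),
      ((LinearMap.toContinuousLinearMap (Matrix.toLin' X)).comp B).det = X.det * B.det := by
    intro X B
    unfold ContinuousLinearMap.det
    rw [ContinuousLinearMap.toLinearMap_comp, LinearMap.det_comp,
      LinearMap.coe_toContinuousLinearMap, LinearMap.det_toLin']
  have e2 : ((fderiv ℝ P (ψ u)).comp (fderiv ℝ ψ u)).det =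
      (fderiv ℝ P (ψ u)).det * (fderiv ℝ ψ u).det := by
    unfold ContinuousLinearMap.det
    rw [ContinuousLinearMap.toLinearMap_comp, LinearMap.det_comp]
  rw [e1, e1, e2] at hdet
  rw [mul_assoc]
  exact hdet

end Pool.Agent.Helper8.DG
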